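import Pool.Agent.X219.NO.Comp

/-!
All r.e. languages can be learned, in the sense of `NegO^i TxtBc^*`, for every `i ≥ 1`. The
definitions are in `Pool/Agent/X219/NO/Defs.lean`: `Acceptable`, `W`, `RE`, `Item`, `IsInfo`,
`PosInfo`, `NegInfo`, `initial`, `AtMost`, `Identifies`, `NegOTxtBc`.

Proof. Let `e₀` be the least index of `L`. On an initial segment `I[n]` the learner looks for the
least `e ≤ n` such that the positive data are in `W_e`, the negative data are not in `W_e`, and,
for each `e₁ < e` for which an element below `n` of `W_e \ W_{e₁}` exists, such an element is among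
the positive data. This can be decided with the halting problem as an oracle, so a computable
learner can output programs which do this in the limit, and give a finite variant of the chosen
`W_e`. If some `e < e₀` is never rejected by the positive data then `W_e` properly contains `L`,
and all such sets `W_e` form a chain, so that one element `x` outside `L` is in all of them, and
`S = {x}` is enough.
-/

namespace Pool.Agent.Results.MP_1b3940_lc.OneNegativeDatum

open Filter Encodable
open Pool.Agent.X219.NO

/-- For every acceptable numbering and every `i ≥ 1`, the class of all r.e. languages is in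
`NegO^i TxtBc^*`. (The second part only says that the standard numbering is acceptable.) -/
theorem result :
    (∀ ψ : ℕ → ℕ →. ℕ, Acceptable ψ → ∀ i : ℕ, 1 ≤ i →
      RE ψ ∈ NegOTxtBc ψ ((i : ℕ) : WithTop ℕ) ⊤) ∧
    Acceptable fun e => Nat.Partrec.Code.eval (Denumerable.ofNat Nat.Partrec.Code e) := by
  constructor
  · intro ψ hψ i hi
    obtain ⟨M, hM, h⟩ := main hψ
    refine ⟨M, hM, fun L hL => ?_⟩
    obtain ⟨S, h1, h2, h3, h4⟩ := h L hL
    refine ⟨S, h1, ⟨h2, WithTop.coe_le_coe.2 (h3.trans hi)⟩, fun I _ h5 h6 h7 => ?_⟩
    obtain ⟨N, hN⟩ := eventually_atTop.1 (h4 I h5 h6 h7)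
    exact ⟨N, fun n hn => ⟨hN n hn, le_top⟩⟩
  · constructor
    · exact Nat.Partrec.Code.eval_part.comp
        ((Computable.ofNat Nat.Partrec.Code).comp Computable.fst) Computable.snd
    · intro g hg
      have h1 : Partrec fun n : ℕ => g n.unpair.1 n.unpair.2 :=
        Partrec.comp (f := fun q : ℕ × ℕ => g q.1 q.2) hg Computable.unpair
      obtain ⟨c, hc⟩ := Nat.Partrec.Code.exists_code.1 (Partrec.nat_iff.1 h1)
      refine ⟨fun p => encode (Nat.Partrec.Code.curry c p), ?_, fun p x => ?_⟩
      · exact Computable.encode.comp
          (Nat.Partrec.Code.primrec₂_curry.comp (Primrec.const c) Primrec.id).to_comp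
      · rw [Denumerable.ofNat_encode, Nat.Partrec.Code.eval_curry, hc]
        simp

end Pool.Agent.Results.MP_1b3940_lc.OneNegativeDatum
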